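import Pool.Agent.H5.OR.Defs2

/-!
# Row KA of the board `org_modules` (MP_e1fd52_al)
-/

set_option autoImplicit false

namespace Pool.Agent.H23.OR.KA

open ORg

/-- the class `KK` is invariant under isomorphisms -/
theorem kk_equiv {P Q : Type} [Group P] [Group Q] (e : P ≃* Q) (h : KK P) : KK Q := by
  obtain ⟨c, b, h1, h2, h3⟩ := h
  refine ⟨e c, e b, ?_, ?_, ?_⟩
  · intro n hn h
    rw [← map_zpow] at h
    exact h1 n hn ((map_eq_one_iff e e.injective).mp h)
  · intro g
    obtain ⟨m, n, hm, hn, hg⟩ := h2 (e.symm g)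
    refine ⟨m, n, hm, hn, ?_⟩
    have := congrArg e hg
    simpa using this
  · intro m hm h
    refine h3 m hm ?_
    obtain ⟨k, hk⟩ := Subgroup.mem_zpowers_iff.mp h
    refine Subgroup.mem_zpowers_iff.mpr ⟨k, e.injective ?_⟩
    rw [map_zpow, map_zpow]
    exact hk

theorem pf_KA (TK : T_TK) : T_KA := by
  constructor
  · intro P _ hP S hAC hb
    obtain ⟨K, Sg, hK, hcl, hch⟩ := hP
    have hfix : ∀ A : Subgroup P, KK A → ∃ v : S.V, S.red v ∧ ∀ g ∈ A, g • v = v := by
      intro A hA
      obtain ⟨v, hv⟩ := TK A (S.comap A.subtype) hA (by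
        intro g hg u v hu hv h1 h2
        exact hAC (g : P) (fun h => hg (Subtype.ext h)) u v hu hv h1 h2)
      have hv' : ∀ g ∈ A, g • (show S.V from v) = v := fun g hg => hv ⟨g, hg⟩
      refine ⟨v, ?_, hv'⟩
      by_contra hred
      exact hb A v hA hred hv'
    obtain ⟨v, hv, hKv⟩ := hfix K hK
    have hchain : ∀ B : Subgroup P, Relation.ReflTransGen
        (fun A B : Subgroup P => KK B ∧ A ⊓ B ≠ ⊥) K B → ∀ g ∈ B, g • v = v := by
      intro B hB
      induction hB with
      | refl => exact hKv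
      | @tail A B _ hAB ih =>
        obtain ⟨hB, hne⟩ := hAB
        obtain ⟨u, hu, hBu⟩ := hfix B hB
        obtain ⟨⟨g, hg⟩, hg1'⟩ := (Subgroup.ne_bot_iff_exists_ne_one).mp hne
        have hg1 : g ≠ 1 := fun h => hg1' (Subtype.ext h)
        have huv : u = v := hAC g hg1 u v hu hv (hBu g hg.2) (ih g hg.1)
        rw [← huv]
        exact hBu
    refine ⟨v, hv, ?_⟩
    have hle : Subgroup.closure Sg ≤ MulAction.stabilizer P v := by
      rw [Subgroup.closure_le]
      intro s hs
      have h1 := hchain _ (hch s hs)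
      obtain ⟨c, b, hc, -, -⟩ := hK
      have hc1 : (c : P) ≠ 1 := fun h => hc 1 one_ne_zero (by
        rw [zpow_one]
        exact Subtype.ext h)
      have h2 : (s * c * s⁻¹) • v = v := h1 _ ⟨c, c.2, rfl⟩
      have h3 : (s * c * s⁻¹) • s • v = s • v := by
        rw [← mul_smul, inv_mul_cancel_right, mul_smul, hKv _ c.2]
      have h4 : s * (c : P) * s⁻¹ ≠ 1 := by
        intro h
        exact hc1 (conj_eq_one_iff.mp h)
      have h5 : S.red (s • v) := (S.red_smul s v).mpr hv
      exact hAC _ h4 (s • v) v h5 hv h3 h2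
    intro g
    have : g ∈ Subgroup.closure Sg := by
      rw [hcl]
      exact Subgroup.mem_top g
    exact hle this
  · intro P _ hP
    refine ⟨⊤, Set.univ, kk_equiv Subgroup.topEquiv.symm hP, Subgroup.closure_univ, ?_⟩
    intro s _
    have h : (⊤ : Subgroup P).map (MulAut.conj s).toMonoidHom = ⊤ :=
      Subgroup.map_top_of_surjective _ (MulAut.conj s).surjective
    rw [h]

end Pool.Agent.H23.OR.KA
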