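import Pool.Agent.H5.OR.Defs2
import Pool.Agent.H23.OR.KA

/-!
# Row BG of the board `org_modules` (MP_e1fd52_al)
-/

set_option autoImplicit false

namespace Pool.Agent.H23.OR.BG

open ORg

variable {p q : ℤ}

theorem relA_map {Q : Type} [Group Q] (f : FreeGroup (Option Unit) →* Q) (p q : ℤ) :
    f (relA (FreeGroup.of ()) p q) =
      f (FreeGroup.of none) * f (FreeGroup.of (some ())) ^ p * (f (FreeGroup.of none))⁻¹ *
        (f (FreeGroup.of (some ())) ^ q)⁻¹ := by
  simp only [relA, map_mul, map_inv, map_zpow, FreeGroup.map.of]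

theorem relG_map {Q : Type} [Group Q] (f : FreeGroup (Option Unit) →* Q) (m n : ℤ) :
    f (relG (FreeGroup.of ()) m n) =
      (f (FreeGroup.of none) * f (FreeGroup.of (some ())) * (f (FreeGroup.of none))⁻¹) *
        f (FreeGroup.of (some ())) ^ m *
        (f (FreeGroup.of none) * f (FreeGroup.of (some ())) * (f (FreeGroup.of none))⁻¹)⁻¹ *
        (f (FreeGroup.of (some ())) ^ n)⁻¹ := by
  simp only [relG, map_mul, map_inv, map_zpow, FreeGroup.map.of]

/-- the defining relation -/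
theorem bs_rel (p q : ℤ) : bsT p q * bsA p q ^ p * (bsT p q)⁻¹ * (bsA p q ^ q)⁻¹ = 1 := by
  have h : PresentedGroup.mk ({relA (FreeGroup.of ()) p q} : Set _)
      (relA (FreeGroup.of ()) p q) = 1 := PresentedGroup.one_of_mem rfl
  rw [relA_map] at h
  exact h

/-- the exponent sum of `t` -/
theorem bs_exp (p q : ℤ) : ∃ f : BS p q →* Multiplicative ℤ,
    f (bsT p q) = Multiplicative.ofAdd 1 ∧ f (bsA p q) = 1 := by
  let f : Option Unit → Multiplicative ℤ := fun o => Option.elim o (Multiplicative.ofAdd 1)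
    (fun _ => 1)
  have hf : ∀ r ∈ ({relA (FreeGroup.of ()) p q} : Set (FreeGroup (Option Unit))),
      FreeGroup.lift f r = 1 := by
    intro r hr
    rw [Set.mem_singleton_iff] at hr
    rw [hr]
    simp [relA, f]
  exact ⟨PresentedGroup.toGroup hf, PresentedGroup.toGroup.of hf, PresentedGroup.toGroup.of hf⟩

theorem bs_inter (p q k j : ℤ) (h : bsT p q ^ k = bsA p q ^ j) : k = 0 := by
  obtain ⟨f, h1, h2⟩ := bs_exp p q
  have h3 := congrArg f h
  rw [map_zpow, map_zpow, h1, h2, one_zpow, ← ofAdd_zsmul] at h3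
  simpa using h3

theorem zinj {G : Type} [Group G] {x : G} (hx : ∀ k : ℤ, k ≠ 0 → x ^ k ≠ 1) :
    Function.Injective (zpowersHom G x) := by
  rw [injective_iff_map_eq_one]
  intro k hk
  by_contra h
  exact hx (Multiplicative.toAdd k) (fun h' => h (by
    rw [← ofAdd_toAdd k, h']
    rfl)) hk

/-- the embedding -/
theorem embed (BK : T_BK) (m n : ℤ) (hm : m ≠ 0) (hn : n ≠ 0) : ∃ (H : Type) (_ : Group H)
    (i : BS m n →* H) (f : OR (relG (FreeGroup.of ()) m n) →* H), Function.Injective i ∧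
    f (PresentedGroup.of (some ())) = i (bsA m n) ∧
    f (PresentedGroup.of none * PresentedGroup.of (some ()) * (PresentedGroup.of none)⁻¹) =
      i (bsT m n) := by
  have hA : Function.Injective (zpowersHom _ (bsA m n)) := zinj (BK m n hm hn).2
  have hT : Function.Injective (zpowersHom _ (bsT m n)) := zinj fun k hk h => hk
    (bs_inter m n k 0 (by rw [h, zpow_zero]))
  let φ : (zpowersHom _ (bsA m n)).range ≃* (zpowersHom _ (bsT m n)).range :=
    (MonoidHom.ofInjective hA).symm.trans (MonoidHom.ofInjective hT)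
  have hAm : bsA m n ∈ (zpowersHom _ (bsA m n)).range :=
    ⟨Multiplicative.ofAdd 1, zpow_one (bsA m n)⟩
  have hφ : ((φ ⟨bsA m n, hAm⟩ : (zpowersHom _ (bsT m n)).range) : BS m n) = bsT m n := by
    have h1 : (MonoidHom.ofInjective hA).symm ⟨bsA m n, hAm⟩ = Multiplicative.ofAdd 1 := by
      rw [MulEquiv.symm_apply_eq]
      refine Subtype.ext ?_
      rw [MonoidHom.ofInjective_apply]
      exact (zpow_one (bsA m n)).symm
    show ((MonoidHom.ofInjective hT ((MonoidHom.ofInjective hA).symm ⟨bsA m n, hAm⟩) :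
      (zpowersHom _ (bsT m n)).range) : BS m n) = bsT m n
    rw [h1, MonoidHom.ofInjective_apply]
    exact zpow_one (bsT m n)
  have hrel : (HNNExtension.t : HNNExtension (BS m n) _ _ φ) * HNNExtension.of (bsA m n) *
      (HNNExtension.t)⁻¹ = HNNExtension.of (bsT m n) := by
    rw [mul_inv_eq_iff_eq_mul]
    have := HNNExtension.t_mul_of (φ := φ) ⟨bsA m n, hAm⟩
    rw [hφ] at this
    exact this
  let g : Option Unit → HNNExtension (BS m n) _ _ φ := fun o => Option.elim o HNNExtension.t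
    (fun _ => HNNExtension.of (bsA m n))
  have hg : ∀ r ∈ ({relG (FreeGroup.of ()) m n} : Set (FreeGroup (Option Unit))),
      FreeGroup.lift g r = 1 := by
    intro r hr
    rw [Set.mem_singleton_iff] at hr
    rw [hr]
    simp only [relG, map_mul, map_inv, map_zpow, FreeGroup.map.of, FreeGroup.lift_apply_of, g,
      Option.elim]
    rw [hrel]
    simp only [← map_zpow, ← map_inv, ← map_mul]
    rw [← zpow_neg, zpow_neg, bs_rel, map_one]
  refine ⟨HNNExtension (BS m n) _ _ φ, inferInstance, HNNExtension.of,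
    PresentedGroup.toGroup hg, HNNExtension.of_injective φ, PresentedGroup.toGroup.of hg, ?_⟩
  rw [map_mul, map_mul, map_inv, PresentedGroup.toGroup.of hg, PresentedGroup.toGroup.of hg]
  exact hrel

theorem pg_rel (m n : ℤ) :
    ((PresentedGroup.of none * PresentedGroup.of (some ()) * (PresentedGroup.of none)⁻¹) *
      PresentedGroup.of (some ()) ^ m *
      (PresentedGroup.of none * PresentedGroup.of (some ()) * (PresentedGroup.of none)⁻¹)⁻¹ :
      OR (relG (FreeGroup.of ()) m n)) = PresentedGroup.of (some ()) ^ n := by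
  have h : PresentedGroup.mk ({relG (FreeGroup.of ()) m n} : Set _)
      (relG (FreeGroup.of ()) m n) = 1 := PresentedGroup.one_of_mem rfl
  rw [relG_map, mul_inv_eq_one] at h
  exact h

/-- commensurating elements -/
theorem comm_sub {P : Type} [Group P] (a : P) : ∃ C : Subgroup P, ∀ g, g ∈ C ↔
    ∃ m n : ℤ, m ≠ 0 ∧ n ≠ 0 ∧ g * a ^ m * g⁻¹ = a ^ n := by
  refine ⟨⟨⟨⟨{g | ∃ m n : ℤ, m ≠ 0 ∧ n ≠ 0 ∧ g * a ^ m * g⁻¹ = a ^ n}, ?_⟩, ?_⟩, ?_⟩, ?_⟩
  · rintro g h ⟨m, n, hm, hn, h1⟩ ⟨m', n', hm', hn', h2⟩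
    refine ⟨m * m', n * n', mul_ne_zero hm hm', mul_ne_zero hn hn', ?_⟩
    have e1 : h * a ^ (m * m') * h⁻¹ = a ^ (n' * m) := by
      rw [mul_comm m m', zpow_mul, ← conj_zpow, h2, ← zpow_mul]
    have e2 : g * a ^ (n' * m) * g⁻¹ = a ^ (n * n') := by
      rw [mul_comm n' m, zpow_mul, ← conj_zpow, h1, ← zpow_mul]
    rw [← e2, ← e1]
    group
  · exact ⟨1, 1, one_ne_zero, one_ne_zero, by group⟩
  · rintro g ⟨m, n, hm, hn, h1⟩
    refine ⟨n, m, hn, hm, ?_⟩
    rw [← h1]
    group
  · intro g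
    exact Iff.rfl

theorem pf_BG (BK : T_BK) : T_BG := by
  intro m n hm hn
  obtain ⟨H, _, i, f, hi, hfa, hfb⟩ := embed BK m n hm hn
  set P := OR (relG (FreeGroup.of ()) m n) with hP
  set a : P := PresentedGroup.of (some ()) with ha
  set t : P := PresentedGroup.of none with ht
  have hinf : ∀ k : ℤ, k ≠ 0 → a ^ k ≠ 1 := by
    intro k hk h
    have h1 := congrArg f h
    rw [map_zpow, hfa, map_one, ← map_zpow] at h1
    exact (BK m n hm hn).2 k hk ((map_eq_one_iff i hi).mp h1)
  refine ⟨?_, hinf⟩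
  have hrel : (t * a * t⁻¹) * a ^ m * (t * a * t⁻¹)⁻¹ = a ^ n := pg_rel m n
  set K : Subgroup P := Subgroup.closure {a, t * a * t⁻¹} with hK
  have haK : a ∈ K := Subgroup.subset_closure (Or.inl rfl)
  have hbK : t * a * t⁻¹ ∈ K := Subgroup.subset_closure (Or.inr rfl)
  have hKK : KK K := by
    refine ⟨⟨a, haK⟩, ⟨t * a * t⁻¹, hbK⟩, ?_, ?_, ?_⟩
    · intro k hk h
      exact hinf k hk (congrArg Subtype.val h)
    · obtain ⟨C, hC⟩ := comm_sub a
      have hKC : K ≤ C := by
        rw [hK, Subgroup.closure_le]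
        rintro x (rfl | hx)
        · exact (hC _).mpr ⟨1, 1, one_ne_zero, one_ne_zero, by group⟩
        · rw [Set.mem_singleton_iff] at hx
          rw [hx]
          exact (hC _).mpr ⟨m, n, hm, hn, hrel⟩
      rintro ⟨g, hg⟩
      obtain ⟨m', n', h1, h2, h3⟩ := (hC g).mp (hKC hg)
      exact ⟨m', n', h1, h2, Subtype.ext h3⟩
    · intro k hk h
      obtain ⟨j, hj⟩ := Subgroup.mem_zpowers_iff.mp h
      have h1 : a ^ j = (t * a * t⁻¹) ^ k := congrArg Subtype.val hj
      have h2 := congrArg f h1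
      rw [map_zpow, map_zpow, hfa, hfb, ← map_zpow, ← map_zpow] at h2
      exact hk (bs_inter m n k j (hi h2.symm))
  refine ⟨K, {a, t}, hKK, ?_, ?_⟩
  · rw [eq_top_iff, ← PresentedGroup.closure_range_of]
    refine Subgroup.closure_mono ?_
    rintro _ ⟨o, rfl⟩
    rcases o with _ | _
    · exact Or.inr rfl
    · exact Or.inl rfl
  · rintro s (rfl | hs)
    · have h : K.map (MulAut.conj a).toMonoidHom = K := by
        ext x
        constructor
        · rintro ⟨y, hy, rfl⟩
          exact K.mul_mem (K.mul_mem haK hy) (K.inv_mem haK)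
        · intro hx
          refine ⟨a⁻¹ * x * a, K.mul_mem (K.mul_mem (K.inv_mem haK) hx) haK, ?_⟩
          show a * (a⁻¹ * x * a) * a⁻¹ = x
          group
      rw [h]
    · rw [Set.mem_singleton_iff] at hs
      rw [hs]
      refine Relation.ReflTransGen.single ⟨?_, ?_⟩
      · exact KA.kk_equiv (K.equivMapOfInjective _ (MulAut.conj t).injective) hKK
      · intro h
        have h1 : t * a * t⁻¹ ∈ K ⊓ K.map (MulAut.conj t).toMonoidHom :=
          ⟨hbK, ⟨a, haK, rfl⟩⟩
        rw [h, Subgroup.mem_bot] at h1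
        exact hinf 1 one_ne_zero (by rw [zpow_one]; exact conj_eq_one_iff.mp h1)

end Pool.Agent.H23.OR.BG
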