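import Pool.Agent.H5.OR.Targets

/-!
# Row CC of the board `org_modules` (MP_e1fd52_al)
-/

set_option autoImplicit false

namespace Pool.Agent.H23.OR

open ORg

theorem cc_two {Y : Type} (z : FreeGroup Y) (hz : z ≠ 1) (hc : ∀ g, g * z = z * g) (x y : Y) :
    x = y := by
  classical
  by_contra hxy
  obtain ⟨l, hl⟩ : ∃ l, l = z.toWord := ⟨_, rfl⟩
  have hred : FreeGroup.IsReduced l := by rw [hl]; exact FreeGroup.isReduced_toWord
  have hzl : FreeGroup.mk l = z := by rw [hl]; exact FreeGroup.mk_toWord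
  have hne : l ≠ [] := by
    intro h
    rw [h] at hzl
    exact hz (hzl.symm.trans FreeGroup.one_eq_mk.symm)
  obtain ⟨f, l', rfl⟩ : ∃ f l', l = f :: l' := List.exists_cons_of_ne_nil hne
  obtain ⟨e, he⟩ : ∃ e, (f :: l').getLast? = some e := by
    rw [List.getLast?_eq_some_getLast hne]
    exact ⟨_, rfl⟩
  obtain ⟨c, hcf⟩ : ∃ c : Y, c ≠ f.1 := by
    by_cases h : x = f.1
    · exact ⟨y, fun h' => hxy (h.trans h'.symm)⟩
    · exact ⟨x, h⟩
  have h1 : FreeGroup.IsReduced ((c, e.2) :: (f :: l')) := by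
    unfold FreeGroup.IsReduced at hred ⊢
    rw [List.isChain_cons_cons]
    exact ⟨fun h => absurd h hcf, hred⟩
  have h2 : FreeGroup.IsReduced ((f :: l') ++ [(c, e.2)]) := by
    unfold FreeGroup.IsReduced at hred ⊢
    rw [List.isChain_append]
    refine ⟨hred, List.isChain_singleton _, ?_⟩
    intro s hs t ht
    rw [he] at hs
    simp only [Option.mem_def, Option.some.injEq] at hs
    simp only [List.head?_cons, Option.mem_def, Option.some.injEq] at ht
    subst hs
    subst ht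
    exact fun _ => rfl
  have h3 : FreeGroup.mk ((c, e.2) :: (f :: l')) = FreeGroup.mk ((f :: l') ++ [(c, e.2)]) := by
    have h4 := hc (FreeGroup.mk [(c, e.2)])
    rw [← hzl, FreeGroup.mul_mk, FreeGroup.mul_mk] at h4
    exact h4
  have h5 : (c, e.2) :: (f :: l') = (f :: l') ++ [(c, e.2)] := by
    have h6 := congrArg FreeGroup.toWord h3
    rw [FreeGroup.toWord_mk, FreeGroup.toWord_mk, h1.reduce_eq, h2.reduce_eq] at h6
    exact h6
  rw [List.cons_append, List.cons.injEq] at h5
  exact hcf (by rw [← h5.1])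

theorem cc_free {Y : Type} (z : FreeGroup Y) (hz : z ≠ 1) (hc : ∀ g, g * z = z * g) :
    ∃ v : FreeGroup Y, ∀ g, g ∈ Subgroup.zpowers v := by
  have hsub := cc_two z hz hc
  rcases isEmpty_or_nonempty Y with hY | ⟨⟨x0⟩⟩
  · refine ⟨1, fun g => ?_⟩
    have h : (⊤ : Subgroup (FreeGroup Y)) ≤ Subgroup.zpowers 1 := by
      rw [← FreeGroup.closure_range_of, Subgroup.closure_le]
      rintro _ ⟨x, rfl⟩
      exact hY.elim x
    exact h trivial
  · refine ⟨FreeGroup.of x0, fun g => ?_⟩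
    have h : (⊤ : Subgroup (FreeGroup Y)) ≤ Subgroup.zpowers (FreeGroup.of x0) := by
      rw [← FreeGroup.closure_range_of, Subgroup.closure_le]
      rintro _ ⟨x, rfl⟩
      rw [hsub x x0]
      exact Subgroup.mem_zpowers _
    exact h trivial

theorem pf_CC : T_CC := by
  intro F _ _ z hz hc
  let e : F ≃* FreeGroup (IsFreeGroup.Generators F) := IsFreeGroup.toFreeGroup F
  obtain ⟨v, hv⟩ := cc_free (e z) (by
    intro h
    exact hz (e.injective (h.trans (map_one e).symm))) (by
    intro g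
    obtain ⟨g', rfl⟩ := e.surjective g
    rw [← map_mul, ← map_mul, hc])
  refine ⟨e.symm v, fun g => ?_⟩
  obtain ⟨n, hn⟩ := Subgroup.mem_zpowers_iff.1 (hv (e g))
  refine Subgroup.mem_zpowers_iff.2 ⟨n, ?_⟩
  rw [← map_zpow, hn, e.symm_apply_apply]

end Pool.Agent.H23.OR
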