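import Pool.Agent.H5.OR.Targets

/-!
# Row CT of the board `org_modules` (MP_e1fd52_al)
-/

set_option autoImplicit false

namespace Pool.Agent.H23.OR

open ORg

theorem conj_one {G : Type} [Group G] {k g : G} (h : k⁻¹ * g * k = 1) : g = 1 := by
  have h1 : g = k * (k⁻¹ * g * k) * k⁻¹ := by group
  rw [h1, h]
  group

theorem ct_orbit {G : Type} [Group G] (S : GTree G) (A B : Subgroup G) (r b : S.V)
    (hA : IsAm S A B r b) (v : S.V) : ∃ g : G, v = g • r ∨ v = g • b := by
  classical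
  have hrb : r ≠ b := hA.adj.ne
  obtain ⟨w, hw⟩ : ∃ w, v ≠ w := by
    by_cases h : v = r
    · exact ⟨b, fun h' => hrb (h.symm.trans h')⟩
    · exact ⟨r, h⟩
  obtain ⟨u, hu⟩ : ∃ u, S.T.Adj v u := by
    obtain ⟨p⟩ := S.tree.connected.preconnected v w
    cases p with
    | nil => exact absurd rfl hw
    | cons h _ => exact ⟨_, h⟩
  by_cases hr : S.red v
  · obtain ⟨g, hg, -⟩ := hA.edge v u hr hu
    exact ⟨g, Or.inl hg⟩
  · have hru : S.red u := (S.red_adj u v hu.symm).2 hr
    obtain ⟨g, -, hg⟩ := hA.edge u v hru hu.symm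
    exact ⟨g, Or.inr hg⟩

theorem pf_CT (AP : T_AP) : T_CT := by
  intro X
  obtain ⟨S, r, b, hA, -⟩ := AP X X
  let f : FreeGroup X →* FreeGroup (X ⊕ X) :=
    FreeGroup.lift (fun x => FreeGroup.of (Sum.inl x) * FreeGroup.of (Sum.inr x))
  let q1 : FreeGroup (X ⊕ X) →* FreeGroup X := FreeGroup.lift (Sum.elim (fun _ => 1) FreeGroup.of)
  let q2 : FreeGroup (X ⊕ X) →* FreeGroup X := FreeGroup.lift (Sum.elim FreeGroup.of (fun _ => 1))
  have hq1 : ∀ g, q1 (f g) = g := by
    have h : q1.comp f = MonoidHom.id _ := by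
      ext x
      simp [q1, f]
    exact fun g => DFunLike.congr_fun h g
  have hq2 : ∀ g, q2 (f g) = g := by
    have h : q2.comp f = MonoidHom.id _ := by
      ext x
      simp [q2, f]
    exact fun g => DFunLike.congr_fun h g
  have hk1 : ∀ y, q1 (FreeGroup.map Sum.inl y) = 1 := by
    have h : q1.comp (FreeGroup.map Sum.inl) = 1 := by
      ext x
      simp [q1]
    exact fun g => DFunLike.congr_fun h g
  have hk2 : ∀ y, q2 (FreeGroup.map Sum.inr y) = 1 := by
    have h : q2.comp (FreeGroup.map Sum.inr) = 1 := by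
      ext x
      simp [q2]
    exact fun g => DFunLike.congr_fun h g
  refine ⟨S.comap f, ?_⟩
  intro g v hv
  change f g • (show S.V from v) = v at hv
  obtain ⟨k, hk | hk⟩ := ct_orbit S _ _ r b hA v
  · have h1 : (k⁻¹ * f g * k) • r = r := by
      rw [hk] at hv
      rw [mul_smul, mul_smul, hv, inv_smul_smul]
    obtain ⟨y, hy⟩ := (hA.stA _).1 h1
    have h2 := congrArg q1 hy
    rw [hk1, map_mul, map_mul, map_inv, hq1] at h2
    exact conj_one h2.symm
  · have h1 : (k⁻¹ * f g * k) • b = b := by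
      rw [hk] at hv
      rw [mul_smul, mul_smul, hv, inv_smul_smul]
    obtain ⟨y, hy⟩ := (hA.stB _).1 h1
    have h2 := congrArg q2 hy
    rw [hk2, map_mul, map_mul, map_inv, hq2] at h2
    exact conj_one h2.symm

end Pool.Agent.H23.OR
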