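import Pool.Agent.H5.OR.Defs2

/-!
# Row RB of the board `org_modules` (MP_e1fd52_al)
-/

set_option autoImplicit false

namespace Pool.Agent.H23.OR.RB

open ORg

/-- substitution of `w` for the generator `none` -/
def sub {X : Type} (w : FreeGroup X) : FreeGroup (Option Unit) →* FreeGroup (Option X) :=
  FreeGroup.lift (fun o => Option.elim o (FreeGroup.map some w) (fun _ => FreeGroup.of none))

theorem zp {A : Type} [Group A] (w : A) (h : Multiplicative ℤ) :
    zpowersHom A w h = w ^ Multiplicative.toAdd h := rfl

theorem pb_gen {X : Type} (w : FreeGroup X) (R : FreeGroup (Option Unit))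
    (S : FreeGroup (Option X)) (hS : sub w R = S) :
    ∃ (iF : FreeGroup X →* ORg.OR S) (iP : ORg.OR R →* ORg.OR S),
      IsPO (zpowersHom (FreeGroup X) w)
        (zpowersHom (ORg.OR R) (PresentedGroup.of none : ORg.OR R)) iF iP := by
  let mk : FreeGroup (Option X) →* ORg.OR S := PresentedGroup.mk _
  have hmk : mk S = 1 := PresentedGroup.one_of_mem rfl
  let iF : FreeGroup X →* ORg.OR S := mk.comp (FreeGroup.map some)
  have hiF : ∀ x, iF (FreeGroup.of x) = PresentedGroup.of (some x) := fun x => by
    show mk (FreeGroup.map some (FreeGroup.of x)) = _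
    rw [FreeGroup.map.of]
    rfl
  let f : Option Unit → ORg.OR S := fun o => Option.elim o (iF w) (fun _ => PresentedGroup.of none)
  have hf : FreeGroup.lift f = mk.comp (sub w) := by
    ext o
    rcases o with _ | o
    · simp [f, sub, mk, iF]
    · simp [f, sub, mk]
      rfl
  have hrel : ∀ r ∈ ({R} : Set (FreeGroup (Option Unit))), FreeGroup.lift f r = 1 := by
    intro r hr
    rw [Set.mem_singleton_iff] at hr
    subst hr
    rw [hf]
    show mk (sub w r) = 1
    rw [hS]
    exact hmk
  let iP : ORg.OR R →* ORg.OR S := PresentedGroup.toGroup hrel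
  have hiP0 : iP (PresentedGroup.of none) = iF w := PresentedGroup.toGroup.of hrel
  have hiP1 : iP (PresentedGroup.of (some ())) = PresentedGroup.of none :=
    PresentedGroup.toGroup.of hrel
  refine ⟨iF, iP, ?_, ?_, ?_⟩
  · intro h
    rw [zp, zp, map_zpow, map_zpow, hiP0]
  · intro K _ u v huv
    have huv1 : u w = v (PresentedGroup.of none) := by
      have h1 := huv (Multiplicative.ofAdd 1)
      rw [zp, zp] at h1
      simpa using h1
    let g : Option X → K := fun o => Option.elim o (v (PresentedGroup.of (some ())))
      (fun x => u (FreeGroup.of x))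
    have hg1 : (FreeGroup.lift g).comp (FreeGroup.map some) = u := by
      ext x
      simp [g]
    have hg2 : (FreeGroup.lift g).comp (sub w) = v.comp (PresentedGroup.mk _) := by
      ext o
      rcases o with _ | o
      · show FreeGroup.lift g (sub w (FreeGroup.of none)) = v (PresentedGroup.of none)
        have h2 : sub w (FreeGroup.of none) = FreeGroup.map some w := by
          simp [sub]
        rw [h2]
        show ((FreeGroup.lift g).comp (FreeGroup.map some)) w = _
        rw [hg1]
        exact huv1
      · simp [g, sub]
        rfl
    have hrel2 : ∀ r ∈ ({S} : Set (FreeGroup (Option X))), FreeGroup.lift g r = 1 := by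
      intro r hr
      rw [Set.mem_singleton_iff] at hr
      rw [hr, ← hS]
      show ((FreeGroup.lift g).comp (sub w)) R = 1
      rw [hg2]
      show v (PresentedGroup.mk _ R) = 1
      rw [PresentedGroup.one_of_mem (Set.mem_singleton R), map_one]
    let k : ORg.OR S →* K := PresentedGroup.toGroup hrel2
    have hk : k.comp mk = FreeGroup.lift g := by
      ext o
      rw [FreeGroup.lift_apply_of]
      exact PresentedGroup.toGroup.of hrel2
    refine ⟨k, ?_, ?_⟩
    · intro x
      show (k.comp mk) (FreeGroup.map some x) = u x
      rw [hk]
      exact DFunLike.congr_fun hg1 x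
    · have h3 : k.comp iP = v := by
        apply PresentedGroup.ext
        intro o
        rcases o with _ | o
        · show k (iP (PresentedGroup.of none)) = v (PresentedGroup.of none)
          rw [hiP0, ← huv1]
          show (k.comp mk) (FreeGroup.map some w) = u w
          rw [hk]
          exact DFunLike.congr_fun hg1 w
        · show k (iP (PresentedGroup.of (some ()))) = v (PresentedGroup.of (some ()))
          rw [hiP1]
          exact PresentedGroup.toGroup.of hrel2
      exact fun x => DFunLike.congr_fun h3 x
  · intro K _ k l hF hP
    apply PresentedGroup.ext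
    intro o
    rcases o with _ | x
    · rw [← hiP1]
      exact hP _
    · rw [← hiF]
      exact hF _

theorem pf_RB : T_RB := by
  intro X w p q
  exact pb_gen w (relA (FreeGroup.of ()) p q) (relB w p q) (by simp [relA, relB, sub])

end Pool.Agent.H23.OR.RB
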