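import Pool.Agent.H5.OR.Targets

/-!
# Row X2 of the board `org_modules` (MP_e1fd52_al)
-/

set_option autoImplicit false

namespace Pool.Agent.H23.OR

open ORg

theorem pf_X2 : T_X2 := by
  intro X1 X2 P G _ _ w a iF iP hPO
  let N : Subgroup G := Subgroup.normalClosure ((iP.range : Set G) ∪ ((iF.comp fl).range : Set G))
  let π : G →* G ⧸ N := QuotientGroup.mk' N
  let u : FreeGroup (X1 ⊕ X2) →* FreeGroup X2 :=
    FreeGroup.lift (Sum.elim (fun _ => 1) FreeGroup.of)
  have hufl : ∀ y : FreeGroup X1, u (fl y) = 1 := by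
    have h : u.comp fl = 1 := by
      ext x
      simp [u]
    exact fun y => DFunLike.congr_fun h y
  obtain ⟨ρ, hρ1, hρ2⟩ := hPO.lift (FreeGroup X2) u 1 (by
    intro h
    show u (fl w ^ Multiplicative.toAdd h) = 1
    rw [map_zpow, hufl, one_zpow])
  have hN : N ≤ ρ.ker := by
    apply Subgroup.normalClosure_le_normal
    rintro g (⟨x, rfl⟩ | ⟨x, rfl⟩)
    · exact hρ2 x
    · show ρ (iF (fl x)) = 1
      rw [hρ1, hufl]
  let ρ' : G ⧸ N →* FreeGroup X2 := QuotientGroup.lift N ρ hN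
  have hρ' : ∀ g, ρ' (π g) = ρ g := fun g => QuotientGroup.lift_mk' N hN g
  let σ : FreeGroup X2 →* G ⧸ N := FreeGroup.lift (fun y => π (iF (FreeGroup.of (Sum.inr y))))
  have hσ : ∀ y, σ (FreeGroup.of y) = π (iF (FreeGroup.of (Sum.inr y))) := fun y =>
    FreeGroup.lift_apply_of
  have h1 : ρ'.comp σ = MonoidHom.id _ := by
    ext y
    show ρ' (σ (FreeGroup.of y)) = FreeGroup.of y
    rw [hσ, hρ', hρ1]
    simp [u]
  have hπ1 : ∀ x, π (iP x) = 1 := fun x =>
    (QuotientGroup.eq_one_iff _).2 (Subgroup.subset_normalClosure (Or.inl ⟨x, rfl⟩))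
  have hπ2 : ∀ x, π (iF (fl x)) = 1 := fun x =>
    (QuotientGroup.eq_one_iff _).2 (Subgroup.subset_normalClosure (Or.inr ⟨x, rfl⟩))
  have h2 : (σ.comp ρ) = π := by
    apply hPO.uniq (G ⧸ N)
    · have h3 : (σ.comp u) = π.comp iF := by
        ext x
        rcases x with x | y
        · show σ (u (FreeGroup.of (Sum.inl x))) = π (iF (FreeGroup.of (Sum.inl x)))
          have h4 : u (FreeGroup.of (Sum.inl x)) = 1 := by simp [u]
          have h5 : π (iF (FreeGroup.of (Sum.inl x))) = 1 := by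
            have := hπ2 (FreeGroup.of x)
            rwa [FreeGroup.map.of] at this
          rw [h4, h5, map_one]
        · show σ (u (FreeGroup.of (Sum.inr y))) = π (iF (FreeGroup.of (Sum.inr y)))
          have h4 : u (FreeGroup.of (Sum.inr y)) = FreeGroup.of y := by simp [u]
          rw [h4, hσ]
      intro x
      show σ (ρ (iF x)) = π (iF x)
      rw [hρ1]
      exact DFunLike.congr_fun h3 x
    · intro x
      show σ (ρ (iP x)) = π (iP x)
      rw [hρ2, hπ1]
      exact map_one σ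
  refine ⟨MonoidHom.toMulEquiv ρ' σ ?_ h1⟩
  apply QuotientGroup.monoidHom_ext
  ext g
  show σ (ρ' (π g)) = π g
  rw [hρ']
  exact DFunLike.congr_fun h2 g

end Pool.Agent.H23.OR
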